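import Pool.Agent.W_52423f_h71s.Ln

/-! Extremal subgroups: exactly one class, for every rank. -/

set_option autoImplicit false
set_option linter.unusedSectionVars false

namespace Pool.Agent.W_52423f_h71s

open Module TensorProduct

section lin

variable {Ω D V T : Type*} [Field Ω] [DivisionRing D] [CharZero D] [FiniteDimensional ℚ D]
  [AddCommGroup V] [Module D V] [Module ℚ V] [IsScalarTower ℚ D V]
  [AddCommGroup T] [Module Ω T] [Module D T] [SMulCommClass Ω D T] [Module ℚ T]
  [Algebra ℚ Ω] [IsScalarTower ℚ Ω T]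

/-- Two extremal families with the same `D`-span. -/
theorem ext_core (log : V →ₗ[D] T)
    (hline : ∀ x : V, x ≠ 0 →
      finrank Ω (Submodule.span Ω (Set.range fun a : D => a • log x)) = finrank ℚ D)
    {n : ℕ} (x y : Fin (n + 1) → V) (hx : LinearIndependent ℤ x) (hy : LinearIndependent ℤ y)
    (hyx : ∀ i, y i ∈ Submodule.span D (Set.range x)) (c t : Fin (n + 1) → Ω)
    (hc : ∀ i, log (x i) = c i • log (x 0)) (ht : ∀ i, log (y i) = t i • log (y 0)) :
    (∃ e : Ω, IsAlgebraic ℚ e ∧ (∀ q : ℚ, e ≠ algebraMap ℚ Ω q) ∧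
      ∀ i, e • log (x i) ∈ Submodule.span ℚ (Set.range fun j => log (x j))) ∨
    ∃ (k : D) (g : Fin (n + 1) → Fin (n + 1) → ℚ), ∀ i, y i = k • ∑ j, (g i j : D) • x j := by
  classical
  have hinj : ∀ v : V, log v = 0 → v = 0 := by
    intro v hv
    by_contra hv0
    have h1 := hline v hv0
    have h2 := Pool.Agent.W_52423f_h21.good_basis (log v) h1
    exact h2.ne_zero ⟨0, finrank_pos⟩ (by rw [hv, smul_zero])
  let w : T := log (x 0)
  have hx0 : x 0 ≠ 0 := (indepQ hx).ne_zero 0
  have hind : LinearIndependent Ω fun l => finBasis ℚ D l • w :=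
    Pool.Agent.W_52423f_h21.good_basis w (hline _ hx0)
  -- coordinates
  have hyx' : ∀ i, ∃ a : Fin (n + 1) → D, ∑ j, a j • x j = y i := fun i =>
    (Submodule.mem_span_range_iff_exists_fun D).1 (hyx i)
  choose a ha using hyx'
  let d := finBasis ℚ D
  let q : Fin (n + 1) → Fin (n + 1) → Fin (finrank ℚ D) → ℚ := fun i j l => d.repr (a i j) l
  have hq : ∀ i j, a i j = ∑ l, q i j l • d l := fun i j => (d.sum_repr (a i j)).symm
  let γ : Fin (n + 1) → Fin (finrank ℚ D) → Ω := fun i l => ∑ j, q i j l • c j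
  have : IsScalarTower ℚ D T := IsScalarTower.rat
  have hlog : ∀ i, log (y i) = ∑ l, γ i l • d l • w := by
    intro i
    rw [← ha i, map_sum]
    have h1 : ∀ j, log (a i j • x j) = ∑ l, (q i j l • c j) • d l • w := by
      intro j
      rw [map_smul, hc j, ← smul_comm (c j) (a i j) (log (x 0)), hq i j, Finset.sum_smul,
        Finset.smul_sum]
      refine Finset.sum_congr rfl fun l _ => ?_
      rw [smul_assoc, smul_assoc, smul_comm (c j) (q i j l)]
    rw [Finset.sum_congr rfl fun j _ => h1 j, Finset.sum_comm]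
    refine Finset.sum_congr rfl fun l _ => ?_
    rw [← Finset.sum_smul]
  have hrel : ∀ i l, γ i l = t i * γ 0 l := by
    intro i
    have h1 : ∑ l, (γ i l - t i * γ 0 l) • (finBasis ℚ D l • w) = 0 := by
      have h2 := ht i
      rw [hlog i, hlog 0, Finset.smul_sum] at h2
      simp only [sub_smul, Finset.sum_sub_distrib]
      rw [sub_eq_zero]
      refine h2.trans (Finset.sum_congr rfl fun l _ => ?_)
      rw [mul_smul]
    intro l
    exact sub_eq_zero.1 (Fintype.linearIndependent_iff.1 hind _ h1 l)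
  -- independence of the ratios
  have hcQ : LinearIndependent ℚ c := by
    rw [Fintype.linearIndependent_iff]
    intro r hr
    refine Fintype.linearIndependent_iff.1 (indepQ hx) r (hinj _ ?_)
    rw [map_sum]
    have h1 : ∀ i, log (r i • x i) = (r i • c i) • log (x 0) := by
      intro i
      rw [map_rat_smul log (r i) (x i), hc i, smul_assoc]
    rw [Finset.sum_congr rfl fun i _ => h1 i, ← Finset.sum_smul, hr, zero_smul]
  have htQ : LinearIndependent ℚ t := by
    rw [Fintype.linearIndependent_iff]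
    intro r hr
    refine Fintype.linearIndependent_iff.1 (indepQ hy) r (hinj _ ?_)
    rw [map_sum]
    have h1 : ∀ i, log (r i • y i) = (r i • t i) • log (y 0) := by
      intro i
      rw [map_rat_smul log (r i) (y i), ht i, smul_assoc]
    rw [Finset.sum_congr rfl fun i _ => h1 i, ← Finset.sum_smul, hr, zero_smul]
  obtain ⟨l0, hl0⟩ : ∃ l, γ 0 l ≠ 0 := by
    by_contra hcon
    push Not at hcon
    refine (indepQ hy).ne_zero 0 (hinj _ ?_)
    rw [hlog 0]
    exact Finset.sum_eq_zero fun l _ => by rw [hcon l, zero_smul]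
  let C : Submodule ℚ Ω := Submodule.span ℚ (Set.range c)
  have hCf : Module.Finite ℚ C := Module.Finite.span_of_finite ℚ (Set.finite_range c)
  have hγC : ∀ i l, γ i l ∈ C := fun i l =>
    Submodule.sum_mem _ fun j _ => Submodule.smul_mem _ _ (Submodule.subset_span ⟨j, rfl⟩)
  let s : Fin (n + 1) → Ω := fun i => t i * γ 0 l0
  have hsC : ∀ i, s i ∈ C := fun i => by
    have h1 := hγC i l0
    rw [hrel i l0] at h1
    exact h1
  have hsQ : LinearIndependent ℚ s := by
    rw [Fintype.linearIndependent_iff]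
    intro r hr
    refine Fintype.linearIndependent_iff.1 htQ r ?_
    have h1 : (∑ i, r i • t i) * γ 0 l0 = 0 := by
      rw [Finset.sum_mul, ← hr]
      exact Finset.sum_congr rfl fun i _ => smul_mul_assoc _ _ _
    exact (mul_eq_zero.1 h1).resolve_right hl0
  have hsp : Submodule.span ℚ (Set.range s) = C := by
    apply Submodule.eq_of_le_of_finrank_le
    · rw [Submodule.span_le]
      rintro _ ⟨i, rfl⟩
      exact hsC i
    · rw [finrank_span_eq_card hcQ, finrank_span_eq_card hsQ]
  have hmul : ∀ l, ∀ z ∈ C, (γ 0 l / γ 0 l0) * z ∈ C := by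
    intro l z hz
    rw [← hsp] at hz
    induction hz using Submodule.span_induction with
    | mem z h =>
      obtain ⟨i, rfl⟩ := h
      have h1 : γ 0 l / γ 0 l0 * s i = γ i l := by
        rw [hrel i l]
        simp only [s]
        field_simp
      rw [h1]
      exact hγC i l
    | zero => rw [mul_zero]; exact C.zero_mem
    | add z z' _ _ h h' => rw [mul_add]; exact C.add_mem h h'
    | smul r z _ h => rw [mul_smul_comm]; exact C.smul_mem r h
  by_cases hrat : ∀ l, ∃ ε : ℚ, γ 0 l / γ 0 l0 = algebraMap ℚ Ω ε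
  · right
    choose ε hε using hrat
    have hg : ∀ i, ∃ g : Fin (n + 1) → ℚ, ∑ j, g j • c j = s i := fun i =>
      (Submodule.mem_span_range_iff_exists_fun ℚ).1 (hsC i)
    choose g hg using hg
    have hqg : ∀ i j l, q i j l = ε l * g i j := by
      intro i j l
      have h1 : ∑ j, (q i j l - ε l * g i j) • c j = 0 := by
        have h2 : ∑ j, (ε l * g i j) • c j = ε l • s i := by
          rw [← hg i, Algebra.smul_def, Finset.mul_sum]
          refine Finset.sum_congr rfl fun j _ => ?_
          rw [Algebra.smul_def, Algebra.smul_def, map_mul, mul_assoc]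
        simp only [sub_smul, Finset.sum_sub_distrib]
        rw [h2, sub_eq_zero]
        show γ i l = _
        rw [hrel i l, Algebra.smul_def, ← hε l]
        simp only [s]
        field_simp
      exact sub_eq_zero.1 (Fintype.linearIndependent_iff.1 hcQ _ h1 j)
    refine ⟨∑ l, ε l • d l, g, fun i => ?_⟩
    rw [← ha i, Finset.smul_sum]
    refine Finset.sum_congr rfl fun j _ => ?_
    rw [smul_smul]
    congr 1
    rw [hq i j, Finset.sum_mul]
    refine Finset.sum_congr rfl fun l _ => ?_
    rw [hqg i j l, mul_comm (ε l), mul_smul, smul_mul_assoc, ← Rat.cast_commute (g i j) (d l),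
      ← smul_eq_mul (a := ((g i j : ℚ) : D)), Rat.cast_smul_eq_qsmul, smul_comm]
  · left
    push Not at hrat
    obtain ⟨l, hl⟩ := hrat
    have hC0 : C ≠ ⊥ := by
      intro h
      have h1 := hsC 0
      rw [h, Submodule.mem_bot] at h1
      exact hsQ.ne_zero 0 h1
    refine ⟨γ 0 l / γ 0 l0, ?_, hl, fun i => ?_⟩
    · have h1 : IsIntegral ℚ (γ 0 l / γ 0 l0) :=
        isIntegral_of_smul_mem_submodule C hC0 (Module.Finite.iff_fg.1 hCf) _
          fun z hz => by
            rw [smul_eq_mul]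
            exact hmul l z hz
      exact h1.isAlgebraic
    · have h1 : (γ 0 l / γ 0 l0) * c i ∈ C := hmul l _ (Submodule.subset_span ⟨i, rfl⟩)
      obtain ⟨r, hr⟩ := (Submodule.mem_span_range_iff_exists_fun ℚ).1 h1
      have h2 : (γ 0 l / γ 0 l0) • log (x i) = ∑ j, r j • log (x j) := by
        rw [hc i, smul_smul, ← hr, Finset.sum_smul]
        refine Finset.sum_congr rfl fun j _ => ?_
        rw [hc j, smul_assoc]
      rw [h2]
      exact Submodule.sum_mem _ fun j _ => Submodule.smul_mem _ _ (Submodule.subset_span ⟨j, rfl⟩)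

/-- A span of dimension at most one. -/
theorem coef_of_rk (log : V →ₗ[D] T) {n : ℕ} (x : Fin (n + 1) → V) (h0 : log (x 0) ≠ 0)
    (h : rk Ω log (Set.range x) ≤ 1) : ∃ c : Fin (n + 1) → Ω, ∀ i, log (x i) = c i • log (x 0) := by
  have hfd : FiniteDimensional Ω (sp Ω log (Set.range x)) := by
    unfold sp
    exact FiniteDimensional.span_of_finite _ ((Set.finite_range x).image _)
  obtain ⟨v, hv⟩ := (finrank_le_one_iff).1 h
  have hm : ∀ i, log (x i) ∈ sp Ω log (Set.range x) := fun i =>
    Submodule.subset_span ⟨x i, ⟨i, rfl⟩, rfl⟩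
  have h1 : ∀ i, ∃ a : Ω, log (x i) = a • (v : T) := by
    intro i
    obtain ⟨a, ha⟩ := hv ⟨_, hm i⟩
    exact ⟨a, (congrArg Subtype.val ha).symm⟩
  choose a ha using h1
  have ha0 : a 0 ≠ 0 := fun h => h0 (by rw [ha 0, h, zero_smul])
  refine ⟨fun i => a i / a 0, fun i => ?_⟩
  rw [ha i, ha 0, smul_smul, div_mul_cancel₀ _ ha0]

theorem rk_of_scale (log : V →ₗ[D] T) {n : ℕ} (x y : Fin (n + 1) → V) (c : Fin (n + 1) → Ω)
    (hc : ∀ i, log (x i) = c i • log (x 0)) (k : D) (g : Fin (n + 1) → Fin (n + 1) → ℚ)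
    (hg : ∀ i, y i = k • ∑ j, (g i j : D) • x j) : rk Ω log (Set.range y) ≤ 1 := by
  have h1 : sp Ω log (Set.range y) ≤ Submodule.span Ω {k • log (x 0)} := by
    unfold sp
    rw [Submodule.span_le]
    rintro _ ⟨_, ⟨i, rfl⟩, rfl⟩
    have h2 : log (y i) = (∑ j, g i j • c j) • (k • log (x 0)) := by
      rw [hg i, map_smul, map_sum, smul_comm, Finset.sum_smul, Finset.smul_sum, Finset.smul_sum]
      refine Finset.sum_congr rfl fun j _ => ?_
      rw [map_smul, hc j, smul_assoc]
      congr 1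
      rw [Rat.cast_smul_eq_qsmul]
    rw [SetLike.mem_coe, h2]
    exact Submodule.smul_mem _ _ (Submodule.mem_span_singleton_self _)
  have h3 : FiniteDimensional Ω (Submodule.span Ω {k • log (x 0)}) :=
    FiniteDimensional.span_of_finite _ (Set.finite_singleton _)
  have h4 := finrank_span_le_card (R := Ω) ({k • log (x 0)} : Set T)
  simp only [Set.toFinset_singleton, Finset.card_singleton] at h4
  exact (Submodule.finrank_mono h1).trans h4

end lin

section top

variable {p : ℕ} [Fact p.Prime] {D V T : Type*} [DivisionRing D] [CharZero D]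
  [FiniteDimensional ℚ D]
  [AddCommGroup V] [Module D V] [Module ℚ V] [IsScalarTower ℚ D V]
  [AddCommGroup T] [Module ℚ_[p] T] [Module ℤ_[p] T] [IsScalarTower ℤ_[p] ℚ_[p] T] [Module D T]
  [SMulCommClass ℚ_[p] D T] [Module ℚ T] [IsScalarTower ℚ ℚ_[p] T] [TopologicalSpace T]
  [IsTopologicalAddGroup T] [ContinuousSMul ℚ_[p] T] [T2Space T]

theorem rk_le_one_iff (log : V →ₗ[D] T) {n : ℕ} (x : Fin n → V) :
    (∃ r ≤ 1, HasRk p log (AddSubgroup.closure (Set.range x) : Set V) r) ↔
      rk ℚ_[p] log (Set.range x) ≤ 1 := by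
  rw [closure_coe]
  constructor
  · rintro ⟨r, hr, h⟩
    rw [hasRk_iff_zspan] at h
    omega
  · intro h
    exact ⟨_, h, hasRk_zspan log x⟩

/-- Exactly one class. -/
theorem ext_class (log : V →ₗ[D] T) (hfull : Full ℚ_[p] log 1) (n : ℕ) (x : Fin n → V)
    (hx : LinearIndependent ℤ x)
    (hr : ∃ r ≤ 1, HasRk p log (AddSubgroup.closure (Set.range x) : Set V) r) :
    (∃ e : ℚ_[p], IsAlgebraic ℚ e ∧ (∀ q : ℚ, e ≠ q) ∧
      ∀ i, ∃ b : Fin n → ℚ, e • log (x i) = log (∑ j, (b j : D) • x j)) ∨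
    ∀ y : Fin n → V, LinearIndependent ℤ y → (∀ i, y i ∈ Submodule.span D (Set.range x)) →
      ((∃ r ≤ 1, HasRk p log (AddSubgroup.closure (Set.range y) : Set V) r) ↔
        ∃ (k : D) (g : Fin n → Fin n → ℚ), ∀ i, y i = k • ∑ j, (g i j : D) • x j) := by
  rcases n with _ | n
  · right
    intro y _ _
    refine ⟨fun _ => ⟨0, fun _ _ => 0, fun i => i.elim0⟩, fun _ => ?_⟩
    rw [rk_le_one_iff]
    exact (rk_range_le log y).trans (Nat.zero_le _)
  have hline := line_of_full log hfull
  have hinj : ∀ v : V, log v = 0 → v = 0 := by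
    intro v hv
    by_contra hv0
    have h1 := hline v hv0
    have h2 := Pool.Agent.W_52423f_h21.good_basis (log v) h1
    exact h2.ne_zero ⟨0, finrank_pos⟩ (by rw [hv, smul_zero])
  rw [rk_le_one_iff] at hr
  obtain ⟨c, hc⟩ := coef_of_rk log x (fun h => (indepQ hx).ne_zero 0 (hinj _ h)) hr
  by_cases hal : ∃ e : ℚ_[p], IsAlgebraic ℚ e ∧ (∀ q : ℚ, e ≠ q) ∧
      ∀ i, ∃ b : Fin (n + 1) → ℚ, e • log (x i) = log (∑ j, (b j : D) • x j)
  · exact Or.inl hal
  right
  intro y hy hyx
  rw [rk_le_one_iff]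
  constructor
  · intro hry
    obtain ⟨t, ht⟩ := coef_of_rk log y (fun h => (indepQ hy).ne_zero 0 (hinj _ h)) hry
    refine (ext_core log hline x y hx hy hyx c t hc ht).resolve_left ?_
    rintro ⟨e, he1, he2, he3⟩
    refine hal ⟨e, he1, fun q h => he2 q (by rw [h]; rfl), fun i => ?_⟩
    obtain ⟨b, hb⟩ := (Submodule.mem_span_range_iff_exists_fun ℚ).1 (he3 i)
    refine ⟨b, ?_⟩
    rw [← hb, map_sum]
    refine Finset.sum_congr rfl fun j _ => ?_
    rw [map_smul, Rat.cast_smul_eq_qsmul]
  · rintro ⟨k, g, hg⟩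
    exact rk_of_scale log x y c hc k g hg

end top

end Pool.Agent.W_52423f_h71s
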