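import Pool.Agent.W_52423f_h71s.Slope
import Pool.Agent.W_52423f_h69.Pad
import Pool.Agent.W_52423f_h99s.Cnt99
import Pool.Agent.W_52423f_h41.Good

/-! Subspaces stable under a division algebra, lattices and closures. -/

set_option autoImplicit false
set_option linter.unusedSectionVars false

namespace Pool.Agent.W_52423f_h71s

open Module TensorProduct Pool.Agent.W_52423f_h69 Pool.Agent.W_52423f_h53 Pool.Agent.W_52423f_h99s

section lin

variable {Ω D V T : Type*} [Field Ω] [DivisionRing D] [CharZero D] [FiniteDimensional ℚ D]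
  [AddCommGroup V] [Module D V] [Module ℚ V] [IsScalarTower ℚ D V]
  [AddCommGroup T] [Module Ω T] [Module D T] [SMulCommClass Ω D T] [Module ℚ T]
  [Algebra ℚ Ω] [IsScalarTower ℚ Ω T]

theorem finQ (F : Submodule D V) [FiniteDimensional D F] :
    Module.Finite ℚ (F.restrictScalars ℚ : Submodule ℚ V) ∧
      finrank ℚ (F.restrictScalars ℚ : Submodule ℚ V) = finrank ℚ D * finrank D F := by
  have h1 : Module.Finite ℚ F := Module.Finite.trans D F
  exact ⟨h1, (finrank_mul_finrank ℚ D F).symm⟩

theorem sp_spanQ (log : V →ₗ[D] T) (s : Set V) :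
    sp Ω log (Submodule.span ℚ s : Set V) = sp Ω log s := by
  apply le_antisymm
  · have key : ∀ x ∈ Submodule.span ℚ s, log x ∈ sp Ω log s := by
      intro x hx
      induction hx using Submodule.span_induction with
      | mem x h => exact Submodule.subset_span ⟨x, h, rfl⟩
      | zero => rw [map_zero]; exact Submodule.zero_mem _
      | add x y _ _ hx hy =>
        rw [map_add]
        exact Submodule.add_mem _ hx hy
      | smul c x _ hx =>
        have h2 : log (c • x) = (algebraMap ℚ Ω c) • log x := by
          rw [map_rat_smul log c x, algebraMap_smul]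
        rw [h2]
        exact Submodule.smul_mem _ _ hx
    conv_lhs => unfold sp
    rw [Submodule.span_le]
    rintro _ ⟨x, hx, rfl⟩
    exact key x hx
  · exact sp_mono log Submodule.subset_span

theorem exists_sub (F : Submodule D V) [FiniteDimensional D F] {k : ℕ} (hk : k ≤ finrank D F) :
    ∃ F1 : Submodule D V, F1 ≤ F ∧ FiniteDimensional D F1 ∧ finrank D F1 = k := by
  let b := Module.finBasis D F
  have h1 : LinearIndependent D (fun i : Fin (finrank D F) => (b i : V)) :=
    b.linearIndependent.map' F.subtype (Submodule.ker_subtype _)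
  have h2 : LinearIndependent D (fun i : Fin k => (b (Fin.castLE hk i) : V)) :=
    h1.comp _ (Fin.castLE_injective hk)
  refine ⟨Submodule.span D (Set.range fun i : Fin k => (b (Fin.castLE hk i) : V)), ?_,
    FiniteDimensional.span_of_finite D (Set.finite_range _), ?_⟩
  · rw [Submodule.span_le]
    rintro _ ⟨i, rfl⟩
    exact (b _).2
  · rw [finrank_span_eq_card h2, Fintype.card_fin]

/-- The subspaces of dimension at most `j` over `D` have images of full rank. -/
def Full (Ω : Type*) [Field Ω] [Module Ω T] (log : V →ₗ[D] T) (j : ℕ) : Prop :=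
  ∀ F : Submodule D V, FiniteDimensional D F → finrank D F ≤ j →
    finrank ℚ D * finrank D F ≤ rk Ω log (F : Set V)

theorem main2 (log : V →ₗ[D] T) {j : ℕ} (hfull : Full Ω log j)
    (V₀ : Submodule D V) [FiniteDimensional D V₀] (E : Submodule ℚ V)
    (hE : E ≤ V₀.restrictScalars ℚ) :
    j * finrank ℚ E ≤ max j (finrank D V₀) * rk Ω log (E : Set V) := by
  by_cases hE0 : E = ⊥
  · subst hE0
    rw [finrank_bot, mul_zero]
    exact Nat.zero_le _
  have hVf := (finQ V₀).1
  obtain ⟨F, hF0, hFV, hF⟩ := slope (Ω := Ω) log V₀ E hE hE0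
  have hFf : FiniteDimensional D F := Submodule.finiteDimensional_of_le hFV
  obtain ⟨hFQ, hFd⟩ := finQ F
  rw [hFd] at hF
  have hi : 0 < finrank D F := by
    have : Nontrivial F := (Submodule.nontrivial_iff_ne_bot).2 hF0
    exact Module.finrank_pos
  have hiu : finrank D F ≤ finrank D V₀ := Submodule.finrank_mono hFV
  have he : 0 < finrank ℚ D := Module.finrank_pos
  obtain ⟨F1, hF1, hF1f, hF1d⟩ := exists_sub F (k := min (finrank D F) j) (min_le_left _ _)
  have h1 := hfull F1 hF1f (by rw [hF1d]; exact min_le_right _ _)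
  have h2 : rk Ω log (F1 : Set V) ≤ rk Ω log (F : Set V) :=
    rk_mono log (F1 : Set V) (F.restrictScalars ℚ) hF1
  rw [hF1d] at h1
  have h3 : finrank ℚ E * min (finrank D F) j ≤ rk Ω log (E : Set V) * finrank D F := by
    have h4 : finrank ℚ D * (finrank ℚ E * min (finrank D F) j) ≤
        finrank ℚ D * (rk Ω log (E : Set V) * finrank D F) := by
      calc finrank ℚ D * (finrank ℚ E * min (finrank D F) j)
          = finrank ℚ E * (finrank ℚ D * min (finrank D F) j) := by ring
        _ ≤ finrank ℚ E * rk Ω log (F : Set V) := Nat.mul_le_mul_left _ (h1.trans h2)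
        _ ≤ rk Ω log (E : Set V) * (finrank ℚ D * finrank D F) := hF
        _ = _ := by ring
    exact Nat.le_of_mul_le_mul_left h4 he
  rcases le_total (finrank D F) j with h | h
  · rw [min_eq_left h] at h3
    have h5 : finrank ℚ E ≤ rk Ω log (E : Set V) := Nat.le_of_mul_le_mul_right h3 hi
    calc j * finrank ℚ E ≤ j * rk Ω log (E : Set V) := Nat.mul_le_mul_left _ h5
      _ ≤ _ := Nat.mul_le_mul_right _ (le_max_left _ _)
  · rw [min_eq_right h] at h3
    calc j * finrank ℚ E = finrank ℚ E * j := mul_comm _ _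
      _ ≤ rk Ω log (E : Set V) * finrank D F := h3
      _ ≤ rk Ω log (E : Set V) * max j (finrank D V₀) :=
        Nat.mul_le_mul_left _ (hiu.trans (le_max_right _ _))
      _ = _ := mul_comm _ _

/-- A basis of a finitely generated subgroup. -/
theorem lattice (L : AddSubgroup V) (hL : L.FG) :
    ∃ v : Fin (finrank ℤ L) → V, (∀ i, v i ∈ L) ∧ LinearIndependent ℤ v ∧
      (L : Set V) = Submodule.span ℤ (Set.range v) := by
  have h1 : Module.Finite ℤ L := by
    rw [Module.Finite.iff_addGroup_fg]
    exact (AddGroup.fg_iff_addSubgroup_fg L).2 hL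
  have h2 : Module.IsTorsionFree ℤ V := Module.IsTorsionFree.trans_faithfulSMul ℤ ℚ V
  have h3 : Module.IsTorsionFree ℤ L :=
    inferInstanceAs (Module.IsTorsionFree ℤ (AddSubgroup.toIntSubmodule L))
  have h4 : Module.Free ℤ L := Module.free_of_finite_type_torsion_free'
  let β : Basis (Fin (finrank ℤ L)) ℤ L := Module.finBasis ℤ L
  refine ⟨fun i => (β i : V), fun i => (β i).2,
    β.linearIndependent.map' (AddSubgroup.toIntSubmodule L).subtype (Submodule.ker_subtype _), ?_⟩
  ext y
  constructor
  · intro hy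
    have h4 : y = ∑ l, β.repr ⟨y, hy⟩ l • (β l : V) := by
      have := congrArg L.subtype (β.sum_repr ⟨y, hy⟩).symm
      rw [map_sum] at this
      exact this
    rw [h4]
    exact Submodule.sum_mem _ fun l _ => Submodule.smul_mem _ _ (Submodule.subset_span ⟨l, rfl⟩)
  · intro hy
    have h4 : Submodule.span ℤ (Set.range fun i => (β i : V)) ≤ AddSubgroup.toIntSubmodule L := by
      rw [Submodule.span_le]
      rintro _ ⟨i, rfl⟩
      exact (β i).2
    exact h4 hy

theorem indepQ {m : ℕ} {v : Fin m → V} (hv : LinearIndependent ℤ v) : LinearIndependent ℚ v :=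
  (LinearIndependent.iff_fractionRing ℤ ℚ).1 hv

theorem finrank_spanQ {m : ℕ} {v : Fin m → V} (hv : LinearIndependent ℤ v) :
    finrank ℚ (Submodule.span ℚ (Set.range v)) = m := by
  rw [finrank_span_eq_card (indepQ hv), Fintype.card_fin]

theorem sp_zspan (log : V →ₗ[D] T) (s : Set V) :
    sp Ω log (Submodule.span ℤ s : Set V) = sp Ω log s := by
  apply le_antisymm
  · rw [← sp_spanQ log s]
    refine sp_mono log ?_
    intro x hx
    have h1 : Submodule.span ℤ s ≤ (Submodule.span ℚ s).restrictScalars ℤ :=
      Submodule.span_le.2 Submodule.subset_span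
    exact h1 hx
  · exact sp_mono log Submodule.subset_span

end lin

section top

variable {p : ℕ} [Fact p.Prime] {D V T : Type*} [DivisionRing D] [CharZero D]
  [FiniteDimensional ℚ D]
  [AddCommGroup V] [Module D V] [Module ℚ V] [IsScalarTower ℚ D V]
  [AddCommGroup T] [Module ℚ_[p] T] [Module ℤ_[p] T] [IsScalarTower ℤ_[p] ℚ_[p] T] [Module D T]
  [SMulCommClass ℚ_[p] D T] [Module ℚ T] [IsScalarTower ℚ ℚ_[p] T] [TopologicalSpace T]
  [IsTopologicalAddGroup T] [ContinuousSMul ℚ_[p] T] [T2Space T]

/-- The closure of the image of `L` is a finite free `ℤ_p`-module of rank `r`. -/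
def HasRk (p : ℕ) [Fact p.Prime] {V T : Type*} [AddCommGroup T] [Module ℤ_[p] T]
    [TopologicalSpace T] (log : V → T) (L : Set V) (r : ℕ) : Prop :=
  ∃ H : Submodule ℤ_[p] T, (H : Set T) = closure (log '' L) ∧ Module.Finite ℤ_[p] H ∧
    Module.Free ℤ_[p] H ∧ finrank ℤ_[p] H = r

theorem hasRk_unique {log : V → T} {L : Set V} {r r' : ℕ} (h : HasRk p log L r)
    (h' : HasRk p log L r') : r = r' := by
  obtain ⟨H, hH, -, -, rfl⟩ := h
  obtain ⟨H', hH', -, -, rfl⟩ := h'
  have : H = H' := SetLike.coe_injective (hH.trans hH'.symm)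
  rw [this]

theorem hasRk_zspan (log : V →ₗ[D] T) {m : ℕ} (P : Fin m → V) :
    HasRk p log (Submodule.span ℤ (Set.range P) : Set V) (rk ℚ_[p] log (Set.range P)) := by
  obtain ⟨hfin, hfree, hrk⟩ := finrank_zp (p := p) (fun i => log (P i))
  refine ⟨Submodule.span ℤ_[p] (Set.range fun i => log (P i)), ?_, hfin, hfree, ?_⟩
  · rw [closure_zspan]
    congr 1
    have h3 : (Submodule.span ℤ (Set.range P)).map (log.restrictScalars ℤ) =
        Submodule.span ℤ (Set.range fun i => log (P i)) := by
      rw [Submodule.map_span]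
      congr 1
      ext y
      simp
    rw [← h3]
    rfl
  · rw [hrk]
    unfold rk sp
    rw [← Set.range_comp]
    rfl

theorem hasRk_iff_zspan (log : V →ₗ[D] T) {m r : ℕ} (P : Fin m → V) :
    HasRk p log (Submodule.span ℤ (Set.range P) : Set V) r ↔ r = rk ℚ_[p] log (Set.range P) :=
  ⟨fun h => hasRk_unique h (hasRk_zspan log P), fun h => h ▸ hasRk_zspan log P⟩

theorem hasRk_tuple (log : V →ₗ[D] T) {m : ℕ} (P : Fin m → V) :
    HasRk p log (Submodule.span ℤ (Set.range P) : Set V) m ↔
      LinearIndependent ℚ_[p] fun i => log (P i) := by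
  rw [hasRk_iff_zspan, linearIndependent_iff_card_eq_finrank_span, Fintype.card_fin]
  unfold rk sp
  rw [← Set.range_comp]
  rfl

theorem closure_coe (s : Set V) : ((AddSubgroup.closure s : AddSubgroup V) : Set V) =
    (Submodule.span ℤ s : Set V) := by
  rw [← Submodule.span_int_eq_addSubgroupClosure]
  rfl

/-- The exceptions among the tuples. -/
theorem count (log : V →ₗ[D] T) {j : ℕ} (hj : 1 ≤ j) (hfull : Full ℚ_[p] log j) {R : ℕ}
    (g : Fin R → V) (hg : LinearIndependent ℤ g) (m B : ℕ) :
    {x : Fin m → Fin R → ℤ | (∀ i l, |x i l| ≤ (B : ℤ)) ∧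
      ¬ HasRk p log (AddSubgroup.closure (Set.range fun i => ∑ l, x i l • g l) : Set V) m}.ncard ≤
    m * (2 * B + 1) ^ ((m - 1) * R +
      (m - 1) * max j (finrank D (Submodule.span D (Set.range g))) / j) := by
  classical
  let V₀ : Submodule D V := Submodule.span D (Set.range g)
  have hV₀ : FiniteDimensional D V₀ := FiniteDimensional.span_of_finite D (Set.finite_range g)
  have h1 := bad_ncard99 (Ω := ℚ_[p]) (fun l => log (g l)) B
    (fun s => s * max j (finrank D V₀) / j)
    (fun a b hab => Nat.div_le_div_right (Nat.mul_le_mul_right _ hab)) (by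
      intro S hS
      let W := Wsp (fun l => log (g l)) S
      have hinj : Function.Injective (Fintype.linearCombination ℚ g) :=
        (linearIndependent_iff_injective_fintypeLinearCombination).1 (indepQ hg)
      let E : Submodule ℚ V := W.map (Fintype.linearCombination ℚ g)
      have hEd : finrank ℚ E = finrank ℚ W :=
        (Submodule.equivMapOfInjective _ hinj W).symm.finrank_eq
      have hEV : E ≤ V₀.restrictScalars ℚ := by
        rintro _ ⟨w, hw, rfl⟩
        rw [Fintype.linearCombination_apply]
        refine Submodule.sum_mem _ fun l _ => Submodule.smul_mem _ _ ?_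
        exact Submodule.subset_span ⟨l, rfl⟩
      have hEr : rk ℚ_[p] log (E : Set V) ≤ finrank ℚ_[p] S := by
        refine Submodule.finrank_mono ?_
        unfold sp
        rw [Submodule.span_le]
        rintro _ ⟨_, ⟨w, hw, rfl⟩, rfl⟩
        have h2 : ∑ l, w l • log (g l) ∈ S := mem_Wsp.1 hw
        have h3 : log (Fintype.linearCombination ℚ g w) = ∑ l, w l • log (g l) := by
          rw [Fintype.linearCombination_apply, map_sum]
          exact Finset.sum_congr rfl fun l _ => map_rat_smul log (w l) (g l)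
        rw [SetLike.mem_coe, h3]
        exact h2
      have h2 := main2 log hfull V₀ E hEV
      rw [hEd] at h2
      show finrank ℚ W ≤ _
      rw [Nat.le_div_iff_mul_le hj]
      calc finrank ℚ W * j = j * finrank ℚ W := mul_comm _ _
        _ ≤ _ := h2
        _ ≤ max j (finrank D V₀) * finrank ℚ_[p] S := Nat.mul_le_mul_left _ hEr
        _ = _ := mul_comm _ _) m
  refine le_trans (le_of_eq ?_) h1
  congr 1
  ext x
  simp only [Set.mem_setOf_eq]
  have h4 : HasRk p log (AddSubgroup.closure (Set.range fun i => ∑ l, x i l • g l) : Set V) m ↔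
      LinearIndependent ℚ_[p] (fun i => ∑ l, x i l • log (g l)) := by
    rw [closure_coe, hasRk_tuple]
    have h5 : (fun i => log (∑ l, x i l • g l)) = fun i => ∑ l, x i l • log (g l) := by
      funext i
      rw [map_sum]
      exact Finset.sum_congr rfl fun l _ => map_zsmul log (x i l) (g l)
    rw [h5]
  rw [h4]

end top

end Pool.Agent.W_52423f_h71s
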