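import Pool.Agent.W_52423f_h71s.Tf
import Pool.Agent.W_52423f_h21.Iff

/-! Lines and exceptional planes. -/

set_option autoImplicit false
set_option linter.unusedSectionVars false

namespace Pool.Agent.W_52423f_h71s

open Module TensorProduct

section top

variable {p : ℕ} [Fact p.Prime] {D V T : Type*} [DivisionRing D] [CharZero D]
  [FiniteDimensional ℚ D]
  [AddCommGroup V] [Module D V] [Module ℚ V] [IsScalarTower ℚ D V]
  [AddCommGroup T] [Module ℚ_[p] T] [Module ℤ_[p] T] [IsScalarTower ℤ_[p] ℚ_[p] T] [Module D T]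
  [SMulCommClass ℚ_[p] D T] [Module ℚ T] [IsScalarTower ℚ ℚ_[p] T] [TopologicalSpace T]
  [IsTopologicalAddGroup T] [ContinuousSMul ℚ_[p] T] [T2Space T]

theorem line_of_full (log : V →ₗ[D] T) (h : Full ℚ_[p] log 1) (x : V) (hx : x ≠ 0) :
    finrank ℚ_[p] (Submodule.span ℚ_[p] (Set.range fun a : D => a • log x)) = finrank ℚ D := by
  have h1 : finrank D (Submodule.span D {x}) = 1 := finrank_span_singleton hx
  have hfd : FiniteDimensional D (Submodule.span D {x}) :=
    FiniteDimensional.span_of_finite D (Set.finite_singleton x)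
  have h2 := h (Submodule.span D {x}) hfd h1.le
  rw [h1, mul_one] at h2
  have h3 : sp ℚ_[p] log (Submodule.span D {x} : Set V) =
      Submodule.span ℚ_[p] (Set.range fun a : D => a • log x) := by
    unfold sp
    congr 1
    ext y
    constructor
    · rintro ⟨z, hz, rfl⟩
      obtain ⟨a, rfl⟩ := Submodule.mem_span_singleton.1 hz
      exact ⟨a, (log.map_smul a x).symm⟩
    · rintro ⟨a, rfl⟩
      exact ⟨a • x, Submodule.smul_mem _ _ (Submodule.mem_span_singleton_self x),
        log.map_smul a x⟩
  unfold rk at h2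
  rw [h3] at h2
  refine le_antisymm ?_ h2
  let d := Module.finBasis ℚ D
  have h4 : Submodule.span ℚ_[p] (Set.range fun a : D => a • log x) ≤
      Submodule.span ℚ_[p] (Set.range fun i => d i • log x) := by
    rw [Submodule.span_le]
    rintro _ ⟨a, rfl⟩
    have h5 : a = ∑ i, d.repr a i • d i := (d.sum_repr a).symm
    have : IsScalarTower ℚ D T := IsScalarTower.rat
    show a • log x ∈ _
    rw [h5, Finset.sum_smul]
    refine Submodule.sum_mem _ fun i _ => ?_
    rw [smul_assoc, ← algebraMap_smul ℚ_[p] (d.repr a i)]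
    exact Submodule.smul_mem _ _ (Submodule.subset_span ⟨i, rfl⟩)
  have h6 : FiniteDimensional ℚ_[p] (Submodule.span ℚ_[p] (Set.range fun i => d i • log x)) :=
    FiniteDimensional.span_of_finite _ (Set.finite_range _)
  refine (Submodule.finrank_mono h4).trans ?_
  have h7 := finrank_range_le_card (R := ℚ_[p]) (fun i => d i • log x)
  rwa [Fintype.card_fin] at h7

end top

end Pool.Agent.W_52423f_h71s
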