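import Mathlib

/-! The slope theorem: the minimal slope of a map linear over a division algebra is attained at a
subspace stable under the division algebra. -/

set_option autoImplicit false
set_option linter.unusedSectionVars false

namespace Pool.Agent.W_52423f_h71s

open Module

section

variable {Ω D V T : Type*} [Field Ω] [DivisionRing D] [CharZero D]
  [AddCommGroup V] [Module D V] [Module ℚ V] [IsScalarTower ℚ D V]
  [AddCommGroup T] [Module Ω T] [Module D T] [SMulCommClass Ω D T] [Module ℚ T]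
  [Algebra ℚ Ω] [IsScalarTower ℚ Ω T]

/-- The span of the images. -/
def sp (Ω : Type*) [Field Ω] [Module Ω T] (log : V →ₗ[D] T) (E : Set V) : Submodule Ω T :=
  Submodule.span Ω (log '' E)

theorem sp_mono (log : V →ₗ[D] T) {E F : Set V} (h : E ⊆ F) : sp Ω log E ≤ sp Ω log F :=
  Submodule.span_mono (Set.image_mono h)

theorem sp_finite (log : V →ₗ[D] T) (E : Submodule ℚ V) [Module.Finite ℚ E] :
    FiniteDimensional Ω (sp Ω log (E : Set V)) := by
  obtain ⟨s, hs⟩ := (Submodule.fg_top E).1 (Module.Finite.fg_top (R := ℚ) (M := E))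
    |> fun h => (h : E.FG)
  have key : ∀ x ∈ Submodule.span ℚ (s : Set V),
      log x ∈ Submodule.span Ω (log '' (s : Set V)) := by
    intro x hx
    induction hx using Submodule.span_induction with
    | mem x h => exact Submodule.subset_span ⟨x, h, rfl⟩
    | zero => rw [map_zero]; exact Submodule.zero_mem _
    | add x y _ _ hx hy =>
      rw [map_add]
      exact Submodule.add_mem _ hx hy
    | smul c x _ hx =>
      have h2 : log (c • x) = (algebraMap ℚ Ω c) • log x := by
        rw [map_rat_smul log c x, algebraMap_smul]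
      rw [h2]
      exact Submodule.smul_mem _ _ hx
  have h1 : sp Ω log (E : Set V) ≤ Submodule.span Ω (log '' (s : Set V)) := by
    unfold sp
    rw [Submodule.span_le]
    rintro _ ⟨x, hx, rfl⟩
    exact key x (by rw [hs]; exact hx)
  have h2 : FiniteDimensional Ω (Submodule.span Ω (log '' (s : Set V))) :=
    FiniteDimensional.span_of_finite Ω ((Finset.finite_toSet s).image _)
  exact Submodule.finiteDimensional_of_le h1

theorem sp_sup (log : V →ₗ[D] T) (E F : Submodule ℚ V) :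
    sp Ω log ((E ⊔ F : Submodule ℚ V) : Set V) = sp Ω log (E : Set V) ⊔ sp Ω log (F : Set V) := by
  apply le_antisymm
  · unfold sp
    rw [Submodule.span_le]
    rintro _ ⟨x, hx, rfl⟩
    obtain ⟨e, he, f, hf, rfl⟩ := Submodule.mem_sup.1 hx
    rw [map_add]
    exact Submodule.add_mem_sup (Submodule.subset_span ⟨e, he, rfl⟩)
      (Submodule.subset_span ⟨f, hf, rfl⟩)
  · exact sup_le (sp_mono log (SetLike.coe_subset_coe.2 le_sup_left))
      (sp_mono log (SetLike.coe_subset_coe.2 le_sup_right))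

/-- The rank of the image. -/
noncomputable def rk (Ω : Type*) [Field Ω] [Module Ω T] (log : V →ₗ[D] T) (E : Set V) : ℕ :=
  finrank Ω (sp Ω log E)

theorem rk_sup_add_rk_inf (log : V →ₗ[D] T) (E F : Submodule ℚ V) [Module.Finite ℚ E]
    [Module.Finite ℚ F] :
    rk Ω log ((E ⊔ F : Submodule ℚ V) : Set V) + rk Ω log ((E ⊓ F : Submodule ℚ V) : Set V) ≤
      rk Ω log (E : Set V) + rk Ω log (F : Set V) := by
  have hE := sp_finite (Ω := Ω) log E
  have hF := sp_finite (Ω := Ω) log F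
  unfold rk
  rw [← Submodule.finrank_sup_add_finrank_inf_eq (sp Ω log (E : Set V)) (sp Ω log (F : Set V)),
    sp_sup]
  refine Nat.add_le_add_left ?_ _
  have : FiniteDimensional Ω (sp Ω log (E : Set V) ⊓ sp Ω log (F : Set V) : Submodule Ω T) :=
    Submodule.finiteDimensional_inf_left _ _
  exact Submodule.finrank_mono (le_inf (sp_mono log (SetLike.coe_subset_coe.2 inf_le_left))
    (sp_mono log (SetLike.coe_subset_coe.2 inf_le_right)))

theorem rk_mono (log : V →ₗ[D] T) (E : Set V) (F : Submodule ℚ V) [Module.Finite ℚ F]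
    (h : E ⊆ F) : rk Ω log E ≤ rk Ω log (F : Set V) := by
  have hF := sp_finite (Ω := Ω) log F
  exact Submodule.finrank_mono (sp_mono log h)

/-- Multiplication by an element of the division algebra. -/
noncomputable def lm (a : D) : V →ₗ[ℚ] V := (DistribSMul.toAddMonoidHom V a).toRatLinearMap

theorem lm_apply (a : D) (x : V) : lm a x = a • x := rfl

theorem lm_inj {a : D} (ha : a ≠ 0) : Function.Injective (lm a : V →ₗ[ℚ] V) := fun x y h => by
  have h1 : a • x = a • y := h
  have h2 := congrArg (fun z => a⁻¹ • z) h1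
  simpa [smul_smul, inv_mul_cancel₀ ha] using h2

/-- Multiplication on the target. -/
def lmT (Ω : Type*) [Field Ω] [Module Ω T] [SMulCommClass Ω D T] (a : D) : T →ₗ[Ω] T where
  toFun x := a • x
  map_add' := smul_add a
  map_smul' c x := (smul_comm c a x).symm

theorem rk_lm (log : V →ₗ[D] T) {a : D} (ha : a ≠ 0) (E : Submodule ℚ V) :
    rk Ω log ((E.map (lm a) : Submodule ℚ V) : Set V) = rk Ω log (E : Set V) := by
  have h1 : log '' ((E.map (lm a) : Submodule ℚ V) : Set V) = lmT Ω a '' (log '' (E : Set V)) := by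
    ext y
    constructor
    · rintro ⟨_, ⟨x, hx, rfl⟩, rfl⟩
      refine ⟨log x, ⟨x, hx, rfl⟩, ?_⟩
      exact (log.map_smul a x).symm
    · rintro ⟨_, ⟨x, hx, rfl⟩, rfl⟩
      exact ⟨a • x, ⟨x, hx, rfl⟩, log.map_smul a x⟩
  have hinj : Function.Injective (lmT Ω a : T →ₗ[Ω] T) := fun x y h => by
    have h1 : a • x = a • y := h
    have h2 := congrArg (fun z => a⁻¹ • z) h1
    simpa [smul_smul, inv_mul_cancel₀ ha] using h2
  unfold rk sp
  rw [h1, ← Submodule.map_span]
  exact (Submodule.equivMapOfInjective _ hinj _).symm.finrank_eq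

/-- **The slope theorem.** -/
theorem slope (log : V →ₗ[D] T) (V₀ : Submodule D V)
    [Module.Finite ℚ (V₀.restrictScalars ℚ : Submodule ℚ V)]
    (E : Submodule ℚ V) (hE : E ≤ V₀.restrictScalars ℚ) (hE0 : E ≠ ⊥) :
    ∃ F : Submodule D V, F ≠ ⊥ ∧ F ≤ V₀ ∧
      finrank ℚ E * rk Ω log (F : Set V) ≤
        rk Ω log (E : Set V) * finrank ℚ (F.restrictScalars ℚ : Submodule ℚ V) := by
  classical
  set W : Submodule ℚ V := V₀.restrictScalars ℚ with hW
  have hfd : ∀ G : Submodule ℚ V, G ≤ W → Module.Finite ℚ G := fun G hG =>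
    Submodule.finiteDimensional_of_le hG
  let P : Set (Submodule ℚ V) := {G | G ≠ ⊥ ∧ G ≤ W}
  let f : Submodule ℚ V → ℚ := fun G => (rk Ω log (G : Set V) : ℚ) / (finrank ℚ G : ℚ)
  have hpos : ∀ G ∈ P, 0 < finrank ℚ G := by
    rintro G ⟨hG, hGW⟩
    have := hfd G hGW
    rw [Module.finrank_pos_iff]
    exact (Submodule.nontrivial_iff_ne_bot).2 hG
  have hfin : (f '' P).Finite := by
    refine Set.Finite.subset
      (((Finset.range (rk Ω log (W : Set V) + 1)) ×ˢ (Finset.range (finrank ℚ W + 1))).image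
        (fun q : ℕ × ℕ => (q.1 : ℚ) / (q.2 : ℚ))).finite_toSet ?_
    rintro _ ⟨G, ⟨hG, hGW⟩, rfl⟩
    have h1 := rk_mono (Ω := Ω) log (G : Set V) W (SetLike.coe_subset_coe.2 hGW)
    have h2 := Submodule.finrank_mono hGW
    simp only [Finset.coe_image, Set.mem_image, Finset.mem_coe, Finset.mem_product,
      Finset.mem_range]
    exact ⟨(rk Ω log (G : Set V), finrank ℚ G), ⟨by omega, by omega⟩, rfl⟩
  obtain ⟨μ, ⟨E1, hE1, hE1μ⟩, hμ⟩ := Set.exists_min_image (f '' P) id hfin ⟨_, E, ⟨hE0, hE⟩, rfl⟩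
  have hμ' : ∀ G ∈ P, μ ≤ f G := fun G hG => hμ _ ⟨G, hG, rfl⟩
  let P' : Set (Submodule ℚ V) := {G | G ∈ P ∧ f G = μ}
  have hfin' : ((fun G : Submodule ℚ V => finrank ℚ G) '' P').Finite := by
    refine Set.Finite.subset (Finset.range (finrank ℚ W + 1)).finite_toSet ?_
    rintro _ ⟨G, ⟨⟨hG, hGW⟩, _⟩, rfl⟩
    have h2 := Submodule.finrank_mono hGW
    simp only [Finset.mem_coe, Finset.mem_range]
    omega
  obtain ⟨d, ⟨F, hF, hFd⟩, hd⟩ := Set.exists_max_image _ id hfin' ⟨_, E1, ⟨hE1, hE1μ⟩, rfl⟩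
  have hd' : ∀ G ∈ P', finrank ℚ G ≤ finrank ℚ F := fun G hG => by
    have := hd _ ⟨G, hG, rfl⟩
    rw [← hFd] at this
    exact this
  obtain ⟨hFP, hFμ⟩ := hF
  have hlow : ∀ G : Submodule ℚ V, G ≤ W → μ * (finrank ℚ G : ℚ) ≤ (rk Ω log (G : Set V) : ℚ) := by
    intro G hG
    by_cases h0 : G = ⊥
    · subst h0
      rw [finrank_bot, Nat.cast_zero, mul_zero]
      exact Nat.cast_nonneg _
    · have h1 := hμ' G ⟨h0, hG⟩
      have h2 : (0 : ℚ) < (finrank ℚ G : ℚ) := by exact_mod_cast hpos G ⟨h0, hG⟩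
      exact (le_div_iff₀ h2).1 h1
  have hFr : (rk Ω log (F : Set V) : ℚ) = μ * (finrank ℚ F : ℚ) := by
    have h2 : (0 : ℚ) < (finrank ℚ F : ℚ) := by exact_mod_cast hpos F hFP
    rw [← hFμ]
    field_simp [f]
    rw [div_mul_cancel₀ _ h2.ne']
  have hstab : ∀ a : D, a ≠ 0 → F.map (lm a) ≤ F := by
    intro a ha
    have hGW : F.map (lm a) ≤ W := by
      rintro _ ⟨x, hx, rfl⟩
      exact V₀.smul_mem a (hFP.2 hx)
    have hFf := hfd F hFP.2
    have hGf := hfd _ hGW
    have hSW : F ⊔ F.map (lm a) ≤ W := sup_le hFP.2 hGW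
    have hSf := hfd _ hSW
    have h1 := rk_sup_add_rk_inf (Ω := Ω) log F (F.map (lm a))
    rw [rk_lm log ha F] at h1
    have h2 := Submodule.finrank_sup_add_finrank_inf_eq F (F.map (lm a))
    have h3 : finrank ℚ (F.map (lm a)) = finrank ℚ F :=
      (Submodule.equivMapOfInjective _ (lm_inj ha) F).symm.finrank_eq
    rw [h3] at h2
    have h4 := hlow (F ⊓ F.map (lm a)) (inf_le_left.trans hFP.2)
    have hSP : F ⊔ F.map (lm a) ∈ P := by
      refine ⟨fun h => hFP.1 ?_, hSW⟩
      rw [eq_bot_iff, ← h]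
      exact le_sup_left
    have h5 : f (F ⊔ F.map (lm a)) = μ := by
      apply le_antisymm _ (hμ' _ hSP)
      have h6 : (0 : ℚ) < (finrank ℚ (F ⊔ F.map (lm a) : Submodule ℚ V) : ℚ) := by
        exact_mod_cast hpos _ hSP
      rw [div_le_iff₀ h6]
      have h7 : (rk Ω log ((F ⊔ F.map (lm a) : Submodule ℚ V) : Set V) : ℚ) +
          (rk Ω log ((F ⊓ F.map (lm a) : Submodule ℚ V) : Set V) : ℚ) ≤
          (rk Ω log (F : Set V) : ℚ) + (rk Ω log (F : Set V) : ℚ) := by exact_mod_cast h1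
      have h8 : (finrank ℚ (F ⊔ F.map (lm a) : Submodule ℚ V) : ℚ) +
          (finrank ℚ (F ⊓ F.map (lm a) : Submodule ℚ V) : ℚ) =
          (finrank ℚ F : ℚ) + (finrank ℚ F : ℚ) := by exact_mod_cast h2
      have h9 : (finrank ℚ (F ⊔ F.map (lm a) : Submodule ℚ V) : ℚ) =
          (finrank ℚ F : ℚ) + (finrank ℚ F : ℚ) -
          (finrank ℚ (F ⊓ F.map (lm a) : Submodule ℚ V) : ℚ) := by linarith
      rw [h9, mul_sub, mul_add]
      linarith
    have h10 := hd' _ ⟨hSP, h5⟩
    have h11 : F = F ⊔ F.map (lm a) := Submodule.eq_of_le_of_finrank_le le_sup_left h10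
    exact le_sup_right.trans h11.symm.le
  let F' : Submodule D V :=
    { carrier := F
      add_mem' := F.add_mem
      zero_mem' := F.zero_mem
      smul_mem' := by
        intro a x hx
        by_cases ha : a = 0
        · rw [ha, zero_smul]
          exact F.zero_mem
        · exact hstab a ha ⟨x, hx, rfl⟩ }
  have hF'F : (F'.restrictScalars ℚ : Submodule ℚ V) = F := by
    ext x
    rfl
  refine ⟨F', fun h => hFP.1 ?_, fun x hx => hFP.2 hx, ?_⟩
  · rw [← hF'F, h]
    rfl
  · rw [hF'F]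
    change finrank ℚ E * rk Ω log (F : Set V) ≤ _
    have h1 := hlow E hE
    have h2 : (0 : ℚ) ≤ (finrank ℚ F : ℚ) := Nat.cast_nonneg _
    have h3 : ((finrank ℚ E * rk Ω log (F : Set V) : ℕ) : ℚ) ≤
        ((rk Ω log (E : Set V) * finrank ℚ F : ℕ) : ℚ) := by
      push_cast
      rw [hFr]
      calc (finrank ℚ E : ℚ) * (μ * (finrank ℚ F : ℚ)) =
          (μ * (finrank ℚ E : ℚ)) * (finrank ℚ F : ℚ) := by ring
        _ ≤ _ := mul_le_mul_of_nonneg_right h1 h2
    exact_mod_cast h3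

end

end Pool.Agent.W_52423f_h71s
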