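import Pool.Agent.W_52423f_h71s.Lat
import Pool.Agent.W_52423f_h69.Fin

/-! The equivalences. -/

set_option autoImplicit false
set_option linter.unusedSectionVars false

namespace Pool.Agent.W_52423f_h71s

open Module TensorProduct Pool.Agent.W_52423f_h69 Pool.Agent.W_52423f_h53

theorem int_multiple {V : Type*} [AddCommGroup V] [Module ℚ V] (s : Set V) {x : V}
    (hx : x ∈ Submodule.span ℚ s) : ∃ k : ℤ, k ≠ 0 ∧ k • x ∈ Submodule.span ℤ s := by
  induction hx using Submodule.span_induction with
  | mem x h => exact ⟨1, one_ne_zero, by rw [one_smul]; exact Submodule.subset_span h⟩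
  | zero => exact ⟨1, one_ne_zero, by rw [smul_zero]; exact Submodule.zero_mem _⟩
  | add x y _ _ hx hy =>
    obtain ⟨k, hk, h1⟩ := hx
    obtain ⟨l, hl, h2⟩ := hy
    refine ⟨k * l, mul_ne_zero hk hl, ?_⟩
    rw [smul_add]
    refine Submodule.add_mem _ ?_ ?_
    · rw [mul_comm, mul_smul]
      exact Submodule.smul_mem _ _ h1
    · rw [mul_smul]
      exact Submodule.smul_mem _ _ h2
  | smul c x _ hx =>
    obtain ⟨k, hk, h1⟩ := hx
    refine ⟨k * c.den, mul_ne_zero hk (by exact_mod_cast c.den_ne_zero), ?_⟩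
    have h2 : ((k * c.den : ℤ)) • c • x = c.num • k • x := by
      rw [← Int.cast_smul_eq_zsmul ℚ (k * (c.den : ℤ)), ← Int.cast_smul_eq_zsmul ℚ c.num,
        ← Int.cast_smul_eq_zsmul ℚ k, smul_smul, smul_smul]
      congr 1
      push_cast
      have h3 := Rat.mul_den_eq_num c
      calc (k : ℚ) * (c.den : ℚ) * c = k * (c * c.den) := by ring
        _ = k * c.num := by rw [h3]
        _ = _ := mul_comm _ _
    rw [h2]
    exact Submodule.smul_mem _ _ h1

section top

variable {p : ℕ} [Fact p.Prime] {D V T : Type*} [DivisionRing D] [CharZero D]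
  [FiniteDimensional ℚ D]
  [AddCommGroup V] [Module D V] [Module ℚ V] [IsScalarTower ℚ D V]
  [AddCommGroup T] [Module ℚ_[p] T] [Module ℤ_[p] T] [IsScalarTower ℤ_[p] ℚ_[p] T] [Module D T]
  [SMulCommClass ℚ_[p] D T] [Module ℚ T] [IsScalarTower ℚ ℚ_[p] T] [TopologicalSpace T]
  [IsTopologicalAddGroup T] [ContinuousSMul ℚ_[p] T] [T2Space T]

theorem rk_range_le (log : V →ₗ[D] T) {m : ℕ} (P : Fin m → V) :
    rk ℚ_[p] log (Set.range P) ≤ m := by
  unfold rk sp
  rw [← Set.range_comp]
  have h1 := finrank_range_le_card (R := ℚ_[p]) (log ∘ P)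
  rwa [Fintype.card_fin] at h1

theorem part_one (log : V →ₗ[D] T) (L : AddSubgroup V) (hL : L.FG) :
    ∃ r ≤ finrank ℤ L, HasRk p log (L : Set V) r := by
  obtain ⟨v, hv, hvi, hL'⟩ := lattice L hL
  refine ⟨rk ℚ_[p] log (Set.range v), rk_range_le log v, ?_⟩
  rw [hL']
  exact hasRk_zspan log v

theorem full_of_one (log : V →ₗ[D] T) {j : ℕ}
    (h : ∀ L : AddSubgroup V, L.FG → (∀ a : D, ∀ x ∈ L, ∃ k : ℤ, k ≠ 0 ∧ k • a • x ∈ L) →
      finrank D (Submodule.span D (L : Set V)) ≤ j → HasRk p log (L : Set V) (finrank ℤ L)) :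
    Full ℚ_[p] log j := by
  intro F hF hFj
  obtain ⟨hFQ, hFd⟩ := finQ F
  let w := Module.finBasis ℚ (F.restrictScalars ℚ : Submodule ℚ V)
  let P : Fin (finrank ℚ (F.restrictScalars ℚ : Submodule ℚ V)) → V := fun i => (w i : V)
  have hP : LinearIndependent ℚ P :=
    w.linearIndependent.map' (F.restrictScalars ℚ).subtype (Submodule.ker_subtype _)
  have hPZ : LinearIndependent ℤ P := (LinearIndependent.iff_fractionRing ℤ ℚ).2 hP
  have hPF : ∀ i, P i ∈ F := fun i => (w i).2
  have hspan : Submodule.span ℚ (Set.range P) = F.restrictScalars ℚ := by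
    have h1 := congrArg (Submodule.map (F.restrictScalars ℚ).subtype) w.span_eq
    rw [Submodule.map_span, Submodule.map_top, Submodule.range_subtype, ← Set.range_comp] at h1
    exact h1
  let L : AddSubgroup V := AddSubgroup.closure (Set.range P)
  have hLc : (L : Set V) = (Submodule.span ℤ (Set.range P) : Set V) := closure_coe _
  have hLF : (L : Set V) ⊆ F := by
    rw [hLc]
    intro x hx
    have h1 : Submodule.span ℤ (Set.range P) ≤ (F.restrictScalars ℤ : Submodule ℤ V) :=
      Submodule.span_le.2 (by rintro _ ⟨i, rfl⟩; exact hPF i)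
    exact h1 hx
  have hLfg : L.FG := ⟨(Set.finite_range P).toFinset, by rw [Set.Finite.coe_toFinset]⟩
  have hspanL : Submodule.span D (L : Set V) ≤ F := Submodule.span_le.2 hLF
  have h1 := h L hLfg (by
    intro a x hx
    have h2 : a • x ∈ Submodule.span ℚ (Set.range P) := by
      rw [hspan]
      exact F.smul_mem a (hLF hx)
    obtain ⟨k, hk, h3⟩ := int_multiple _ h2
    exact ⟨k, hk, by rw [← SetLike.mem_coe, hLc]; exact h3⟩)
    ((Submodule.finrank_mono hspanL).trans hFj)
  have hrank : finrank ℤ L = finrank ℚ (F.restrictScalars ℚ : Submodule ℚ V) := by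
    have h2 : finrank ℤ L = finrank ℤ (Submodule.span ℤ (Set.range P)) := by
      have h3 : AddSubgroup.toIntSubmodule L = Submodule.span ℤ (Set.range P) :=
        SetLike.coe_injective hLc
      rw [← h3]
      rfl
    rw [h2, finrank_span_eq_card hPZ, Fintype.card_fin]
  rw [hrank, hLc, hasRk_iff_zspan] at h1
  rw [← hFd, h1]
  exact rk_mono log (Set.range P) (F.restrictScalars ℚ) (by rintro _ ⟨i, rfl⟩; exact hPF i)

theorem two_of_full (log : V →ₗ[D] T) {j : ℕ} (hfull : Full ℚ_[p] log j) (L : AddSubgroup V)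
    (hL : L.FG) (r : ℕ) (hr : HasRk p log (L : Set V) r) :
    j * finrank ℤ L ≤ max j (finrank D (Submodule.span D (L : Set V))) * r := by
  obtain ⟨v, hv, hvi, hL'⟩ := lattice L hL
  have hsp : Submodule.span D (L : Set V) = Submodule.span D (Set.range v) := by
    apply le_antisymm
    · rw [Submodule.span_le, hL']
      have h4 : Submodule.span ℤ (Set.range v) ≤
          (Submodule.span D (Set.range v)).restrictScalars ℤ :=
        Submodule.span_le.2 Submodule.subset_span
      exact h4
    · rw [Submodule.span_le]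
      rintro _ ⟨i, rfl⟩
      exact Submodule.subset_span (hv i)
  have hfd : FiniteDimensional D (Submodule.span D (L : Set V)) := by
    rw [hsp]
    exact FiniteDimensional.span_of_finite D (Set.finite_range v)
  have h1 := main2 log hfull (Submodule.span D (L : Set V)) (Submodule.span ℚ (Set.range v)) (by
    rw [Submodule.span_le]
    rintro _ ⟨i, rfl⟩
    exact Submodule.subset_span (hv i))
  rw [finrank_spanQ hvi] at h1
  have h2 : rk ℚ_[p] log (Submodule.span ℚ (Set.range v) : Set V) = r := by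
    rw [hL', hasRk_iff_zspan] at hr
    unfold rk at hr ⊢
    rw [hr, sp_spanQ]
  rw [h2] at h1
  exact h1

theorem one_of_two (log : V →ₗ[D] T) {j : ℕ} (hj : 1 ≤ j)
    (h : ∀ L : AddSubgroup V, L.FG → ∀ r, HasRk p log (L : Set V) r →
      j * finrank ℤ L ≤ max j (finrank D (Submodule.span D (L : Set V))) * r)
    (L : AddSubgroup V) (hL : L.FG) (hLj : finrank D (Submodule.span D (L : Set V)) ≤ j) :
    HasRk p log (L : Set V) (finrank ℤ L) := by
  obtain ⟨r, hr, hHr⟩ := part_one (p := p) log L hL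
  have h1 := h L hL r hHr
  rw [max_eq_left hLj] at h1
  have h2 : finrank ℤ L ≤ r := Nat.le_of_mul_le_mul_left h1 hj
  rw [le_antisymm h2 hr]
  exact hHr

theorem one_of_three (log : V →ₗ[D] T) {j : ℕ} (hj : 1 ≤ j)
    (h : ∀ (R : ℕ) (g : Fin R → V), LinearIndependent ℤ g → ∀ m B : ℕ,
      {x : Fin m → Fin R → ℤ | (∀ i l, |x i l| ≤ (B : ℤ)) ∧
        ¬ HasRk p log (AddSubgroup.closure (Set.range fun i => ∑ l, x i l • g l) : Set V) m}.ncard ≤
      m * (2 * B + 1) ^ ((m - 1) * R +
        (m - 1) * max j (finrank D (Submodule.span D (Set.range g))) / j))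
    (L : AddSubgroup V) (hL : L.FG) (hLj : finrank D (Submodule.span D (L : Set V)) ≤ j) :
    HasRk p log (L : Set V) (finrank ℤ L) := by
  obtain ⟨v, hv, hvi, hL'⟩ := lattice L hL
  have hu : finrank D (Submodule.span D (Set.range v)) ≤ j := by
    have hfd : FiniteDimensional D (Submodule.span D (L : Set V)) := by
      have hsp : Submodule.span D (L : Set V) ≤ Submodule.span D (Set.range v) := by
        rw [Submodule.span_le, hL']
        have h4 : Submodule.span ℤ (Set.range v) ≤
            (Submodule.span D (Set.range v)).restrictScalars ℤ :=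
          Submodule.span_le.2 Submodule.subset_span
        exact h4
      have hfd2 : FiniteDimensional D (Submodule.span D (Set.range v)) :=
        FiniteDimensional.span_of_finite D (Set.finite_range v)
      exact Submodule.finiteDimensional_of_le hsp
    refine (Submodule.finrank_mono ?_).trans hLj
    rw [Submodule.span_le]
    rintro _ ⟨i, rfl⟩
    exact Submodule.subset_span (hv i)
  obtain ⟨x, hx⟩ := Pool.Agent.W_52423f_h41.exists_good_square
    (fun x : Fin (finrank ℤ L) → Fin (finrank ℤ L) → ℤ =>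
      ¬ HasRk p log (AddSubgroup.closure (Set.range fun i => ∑ l, x i l • v l) : Set V)
        (finrank ℤ L)) (fun B => by
      have h1 := h _ v hvi (finrank ℤ L) B
      rw [max_eq_left hu, Nat.mul_div_cancel _ (by omega)] at h1
      exact h1)
  rw [not_not, closure_coe, hasRk_iff_zspan] at hx
  have h2 : rk ℚ_[p] log (Set.range fun i => ∑ l, x i l • v l) ≤ rk ℚ_[p] log (Set.range v) := by
    unfold rk
    rw [← sp_spanQ log (Set.range v)]
    have h3 : Module.Finite ℚ (Submodule.span ℚ (Set.range v)) :=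
      Module.Finite.span_of_finite ℚ (Set.finite_range v)
    have h4 := sp_finite (Ω := ℚ_[p]) log (Submodule.span ℚ (Set.range v))
    refine Submodule.finrank_mono (sp_mono log ?_)
    rintro _ ⟨i, rfl⟩
    refine Submodule.sum_mem _ fun l _ => ?_
    exact zsmul_mem (show v l ∈ Submodule.span ℚ (Set.range v) from
      Submodule.subset_span ⟨l, rfl⟩) _
  have h5 := rk_range_le (p := p) log v
  rw [hL', hasRk_iff_zspan]
  omega

/-- Lines are good if `ℚ_p ⊗ D` is a division algebra. -/
theorem full_one_of_units (log : V →ₗ[D] T) (hu : ∀ z : ℚ_[p] ⊗[ℚ] D, z ≠ 0 → IsUnit z)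
    (hinj : ∀ x, log x = 0 → x = 0) : Full ℚ_[p] log 1 := by
  intro F hF hF1
  rcases Nat.eq_zero_or_pos (finrank D F) with h0 | h0
  · rw [h0, mul_zero]
    exact Nat.zero_le _
  have h1 : finrank D F = 1 := by omega
  have : Nontrivial F := Module.finrank_pos_iff.1 h0
  obtain ⟨x, hx⟩ := exists_ne (0 : F)
  have hx0 : (x : V) ≠ 0 := fun h => hx (Subtype.ext h)
  have hlx : log (x : V) ≠ 0 := fun h => hx0 (hinj _ h)
  rw [h1, mul_one]
  let d := Module.finBasis ℚ D
  have : IsScalarTower ℚ D T := IsScalarTower.rat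
  let _ : Module (ℚ_[p] ⊗[ℚ] D) T := TensorProduct.Algebra.module
  have hli : LinearIndependent ℚ_[p] fun i => log (d i • (x : V)) := by
    rw [Fintype.linearIndependent_iff]
    intro c hc
    have h2 : (∑ i, c i ⊗ₜ[ℚ] d i : ℚ_[p] ⊗[ℚ] D) • log (x : V) = 0 := by
      rw [Finset.sum_smul, ← hc]
      refine Finset.sum_congr rfl fun i _ => ?_
      rw [TensorProduct.Algebra.smul_def, map_smul]
    have h3 : (∑ i, c i ⊗ₜ[ℚ] d i : ℚ_[p] ⊗[ℚ] D) = 0 := by
      by_contra hne
      have h4 := hu _ hne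
      exact hlx ((h4.smul_eq_zero).1 h2)
    let B := Algebra.TensorProduct.basis ℚ_[p] d
    have h4 : ∑ i, c i • B i = 0 := by
      rw [← h3]
      refine Finset.sum_congr rfl fun i _ => ?_
      rw [Algebra.TensorProduct.basis_apply, TensorProduct.smul_tmul', smul_eq_mul, mul_one]
    exact Fintype.linearIndependent_iff.1 B.linearIndependent c h4
  have hF2 := (finQ F).1
  have h5 : rk ℚ_[p] log (Set.range fun i => d i • (x : V)) ≤ rk ℚ_[p] log (F : Set V) :=
    rk_mono log _ (F.restrictScalars ℚ) (by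
      rintro _ ⟨i, rfl⟩
      exact F.smul_mem _ x.2)
  have h6 : rk ℚ_[p] log (Set.range fun i => d i • (x : V)) = finrank ℚ D := by
    unfold rk sp
    rw [← Set.range_comp]
    have h7 := finrank_span_eq_card hli
    rw [Fintype.card_fin] at h7
    exact h7
  omega

/-- Lines are good if the logarithms are independent over the algebraic numbers. -/
theorem line_of_indep {D V T : Type} [iD : DivisionRing D] [CharZero D]
    [FiniteDimensional ℚ D] [AddCommGroup V] [Module D V] [Module ℚ V] [IsScalarTower ℚ D V]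
    [AddCommGroup T] [Module ℚ_[p] T] [Module ℤ_[p] T] [IsScalarTower ℤ_[p] ℚ_[p] T] [Module D T]
    [SMulCommClass ℚ_[p] D T] [Module ℚ T] [IsScalarTower ℚ ℚ_[p] T] [TopologicalSpace T]
    [IsTopologicalAddGroup T] [ContinuousSMul ℚ_[p] T] [T2Space T] (log : V →ₗ[D] T)
    (hc : ∀ a b : D, a * b = b * a)
    (h : ∀ (n : ℕ) (v : Fin n → V), LinearIndependent ℤ v →
      ∀ a : Fin n → AlgebraicClosure ℚ_[p], (∀ i, IsAlgebraic ℚ (a i)) →
        ∑ i, a i ⊗ₜ[ℚ_[p]] log (v i) = 0 → a = 0)
    (L : AddSubgroup V) (hL : L.FG) (hL1 : finrank D (Submodule.span D (L : Set V)) ≤ 1) :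
    HasRk p log (L : Set V) (finrank ℤ L) := by
  letI : Field D := { iD with mul_comm := hc }
  haveI : NumberField D := ⟨⟩
  obtain ⟨H, hH, hfin, hfree, hr1, hr2⟩ := final p D V T log L hL
    (Or.inr fun n v _ hv => h n v hv)
  refine ⟨H, hH, hfin, hfree, le_antisymm hr1 (hr2.trans ?_)⟩
  calc _ ≤ 1 * finrank ℤ_[p] H := Nat.mul_le_mul_right _ hL1
    _ = _ := one_mul _

end top

end Pool.Agent.W_52423f_h71s
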